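import Mathlib

set_option autoImplicit false

open Finset Function
open scoped Classical

namespace Pool.Agent.H60.Ram3

noncomputable section

variable {U V : Type} [Fintype U] [Fintype V]
variable (G : SimpleGraph U) (H : SimpleGraph V)

/-- Partial conflict-free injections with domain `S`. -/
def IsEmb (S : Finset U) (φ : U → Option V) : Prop :=
  (∀ u, φ u ≠ none ↔ u ∈ S) ∧
  (∀ u w x, φ u = some x → φ w = some x → u = w) ∧
  (∀ u w x y, G.Adj u w → φ u = some x → φ w = some y → ¬ H.Adj x y)

/-- The finite set of all partial conflict-free injections with domain `S`. -/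
def Emb (S : Finset U) : Finset (U → Option V) := univ.filter (IsEmb G H S)

/-- Hosts available for the guest `u`, given the positions of the other guests. -/
def Av (φ : U → Option V) (u : U) : Finset V :=
  univ.filter (fun y => (∀ w, w ≠ u → φ w ≠ some y) ∧
    ∀ w x, G.Adj u w → φ w = some x → ¬ H.Adj x y)

variable {G H}

lemma mem_Emb {S : Finset U} {φ : U → Option V} : φ ∈ Emb G H S ↔ IsEmb G H S φ := by
  simp [Emb]

lemma mem_Av {φ : U → Option V} {u : U} {y : V} :
    y ∈ Av G H φ u ↔ (∀ w, w ≠ u → φ w ≠ some y) ∧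
      ∀ w x, G.Adj u w → φ w = some x → ¬ H.Adj x y := by
  simp [Av]

lemma Av_update (φ : U → Option V) (u : U) (o : Option V) :
    Av G H (update φ u o) u = Av G H φ u := by
  ext y
  rw [mem_Av, mem_Av]
  constructor
  · rintro ⟨h1, h2⟩
    refine ⟨fun w hw => ?_, fun w x hadj hx => ?_⟩
    · have := h1 w hw
      rwa [update_of_ne hw] at this
    · have hne : w ≠ u := fun h => by subst h; exact G.loopless.irrefl _ hadj
      exact h2 w x hadj (by rwa [update_of_ne hne])
  · rintro ⟨h1, h2⟩
    refine ⟨fun w hw => ?_, fun w x hadj hx => ?_⟩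
    · rw [update_of_ne hw]; exact h1 w hw
    · have hne : w ≠ u := fun h => by subst h; exact G.loopless.irrefl _ hadj
      rw [update_of_ne hne] at hx
      exact h2 w x hadj hx

lemma mem_Av_self {S : Finset U} {φ : U → Option V} (hφ : φ ∈ Emb G H S) {u : U} {x : V}
    (hx : φ u = some x) : x ∈ Av G H φ u := by
  rw [mem_Emb] at hφ
  rw [mem_Av]
  refine ⟨fun w hw h => hw (hφ.2.1 w u x h hx), fun w z hadj hz => ?_⟩
  intro hzx
  exact hφ.2.2 u w x z hadj hx hz hzx.symm

lemma emb_update {S : Finset U} {ψ : U → Option V} {u : U} {y : V}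
    (hψ : ψ ∈ Emb G H (S.erase u)) (hu : u ∈ S) (hy : y ∈ Av G H ψ u) :
    update ψ u (some y) ∈ Emb G H S := by
  rw [mem_Emb] at hψ ⊢
  rw [mem_Av] at hy
  obtain ⟨h1, h2, h3⟩ := hψ
  refine ⟨fun w => ?_, fun a b x ha hb => ?_, fun a b x z hadj ha hb => ?_⟩
  · by_cases hw : w = u
    · subst hw; simp [hu]
    · rw [update_of_ne hw, h1 w]; simp [hw]
  · by_cases hau : a = u
    · by_cases hbu : b = u
      · rw [hau, hbu]
      · subst hau
        rw [update_self] at ha
        rw [update_of_ne hbu] at hb
        cases ha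
        exact absurd hb (hy.1 b hbu)
    · by_cases hbu : b = u
      · subst hbu
        rw [update_self] at hb
        rw [update_of_ne hau] at ha
        cases hb
        exact absurd ha (hy.1 a hau)
      · rw [update_of_ne hau] at ha
        rw [update_of_ne hbu] at hb
        exact h2 a b x ha hb
  · by_cases hau : a = u
    · by_cases hbu : b = u
      · rw [hau, hbu] at hadj; exact absurd hadj (G.loopless.irrefl _)
      · subst hau
        rw [update_self] at ha
        rw [update_of_ne hbu] at hb
        cases ha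
        intro h
        exact hy.2 b z hadj hb h.symm
    · by_cases hbu : b = u
      · subst hbu
        rw [update_self] at hb
        rw [update_of_ne hau] at ha
        cases hb
        exact hy.2 a x hadj.symm ha
      · rw [update_of_ne hau] at ha
        rw [update_of_ne hbu] at hb
        exact h3 a b x z hadj ha hb

lemma emb_remove {S : Finset U} {φ : U → Option V} {u : U}
    (hφ : φ ∈ Emb G H S) : update φ u none ∈ Emb G H (S.erase u) := by
  rw [mem_Emb] at hφ ⊢
  obtain ⟨h1, h2, h3⟩ := hφ
  refine ⟨fun w => ?_, fun a b x ha hb => ?_, fun a b x z hadj ha hb => ?_⟩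
  · by_cases hw : w = u
    · subst hw; simp
    · rw [update_of_ne hw, h1 w]; simp [hw]
  · have hau : a ≠ u := fun h => by subst h; simp at ha
    have hbu : b ≠ u := fun h => by subst h; simp at hb
    rw [update_of_ne hau] at ha
    rw [update_of_ne hbu] at hb
    exact h2 a b x ha hb
  · have hau : a ≠ u := fun h => by subst h; simp at ha
    have hbu : b ≠ u := fun h => by subst h; simp at hb
    rw [update_of_ne hau] at ha
    rw [update_of_ne hbu] at hb
    exact h3 a b x z hadj ha hb

lemma some_of_mem {S : Finset U} {φ : U → Option V} (hφ : φ ∈ Emb G H S) {u : U} (hu : u ∈ S) :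
    ∃ x, φ u = some x := by
  rw [mem_Emb] at hφ
  exact Option.ne_none_iff_exists'.1 ((hφ.1 u).2 hu)

/-- Resampling identity. -/
lemma resample {S : Finset U} {u : U} (hu : u ∈ S) (F : (U → Option V) → ℝ) :
    ∑ φ ∈ Emb G H S, F φ =
      ∑ ψ ∈ Emb G H (S.erase u), ∑ y ∈ Av G H ψ u, F (update ψ u (some y)) := by
  rw [Finset.sum_sigma']
  symm
  refine Finset.sum_bij (fun p _ => update p.1 u (some p.2)) ?_ ?_ ?_ ?_
  · rintro ⟨ψ, y⟩ hp
    rw [Finset.mem_sigma] at hp
    exact emb_update hp.1 hu hp.2
  · rintro ⟨ψ, y⟩ hp ⟨ψ', y'⟩ hp' h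
    rw [Finset.mem_sigma] at hp hp'
    have hyy : y = y' := by
      have := congrFun h u
      simpa using this
    have hψ : ψ u = none := by
      have h1 := (mem_Emb.1 hp.1).1 u
      by_contra hne
      have := h1.1 hne
      simp at this
    have hψ' : ψ' u = none := by
      have h1 := (mem_Emb.1 hp'.1).1 u
      by_contra hne
      have := h1.1 hne
      simp at this
    have hpp : ψ = ψ' := by
      funext w
      by_cases hw : w = u
      · rw [hw, hψ, hψ']
      · have := congrFun h w
        simpa [update_of_ne hw] using this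
    subst hyy
    subst hpp
    rfl
  · intro φ hφ
    obtain ⟨x, hx⟩ := some_of_mem hφ hu
    refine ⟨⟨update φ u none, x⟩, ?_, ?_⟩
    · rw [Finset.mem_sigma]
      refine ⟨emb_remove hφ, ?_⟩
      show x ∈ Av G H (update φ u none) u
      rw [Av_update]
      exact mem_Av_self hφ hx
    · show update (update φ u none) u (some x) = φ
      rw [update_idem, ← hx, update_eq_self]
  · intro p _
    rfl

/-- Reversibility of the relocation of the guest `w`. -/
lemma reversible {S : Finset U} {w : U} (hw : w ∈ S)
    (F : (U → Option V) → (U → Option V) → ℝ) :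
    ∑ φ ∈ Emb G H S, ∑ z ∈ Av G H φ w, F φ (update φ w (some z)) =
      ∑ φ ∈ Emb G H S, ∑ x ∈ Av G H φ w, F (update φ w (some x)) φ := by
  rw [resample hw (fun φ => ∑ z ∈ Av G H φ w, F φ (update φ w (some z))),
    resample hw (fun φ => ∑ x ∈ Av G H φ w, F (update φ w (some x)) φ)]
  refine Finset.sum_congr rfl fun ψ _ => ?_
  simp only [Av_update, update_idem]
  rw [Finset.sum_comm]

end

end Pool.Agent.H60.Ram3
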