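import Pool.Agent.H60.Ram3.Reloc

set_option autoImplicit false

open Finset Function
open scoped Classical

namespace Pool.Agent.H60.Ram3

noncomputable section

variable {U V : Type} [Fintype U] [Fintype V]
variable (G : SimpleGraph U) (H : SimpleGraph V)

/-- Pairs (embedding, host) with exactly `j` conflicts, all of them flexible, and with
resampling sum at most `M`. -/
def XX (k : ℝ) (S D : Finset U) (j : ℕ) (M : ℝ) : Finset ((U → Option V) × V) :=
  (Emb G H S ×ˢ univ).filter (fun p => (Wt H D p.1 p.2).card = j ∧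
    (∀ w ∈ Wt H D p.1 p.2, 8 * k + j * k ≤ ((Av G H p.1 w).card : ℝ)) ∧
    RR G H (8 * k) D p.1 p.2 ≤ M)

/-- Pairs with no conflict. -/
def ZZ (S D : Finset U) : Finset ((U → Option V) × V) :=
  (Emb G H S ×ˢ univ).filter (fun p => Wt H D p.1 p.2 = ∅)

variable {G H}

lemma mem_XX {k : ℝ} {S D : Finset U} {j : ℕ} {M : ℝ} {φ : U → Option V} {y : V} :
    (φ, y) ∈ XX G H k S D j M ↔ φ ∈ Emb G H S ∧ (Wt H D φ y).card = j ∧
    (∀ w ∈ Wt H D φ y, 8 * k + j * k ≤ ((Av G H φ w).card : ℝ)) ∧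
    RR G H (8 * k) D φ y ≤ M := by
  simp [XX]

lemma emb_reloc {S : Finset U} {φ : U → Option V} {w : U} {z : V}
    (hφ : φ ∈ Emb G H S) (hw : w ∈ S) (hz : z ∈ Av G H φ w) :
    update φ w (some z) ∈ Emb G H S := by
  have h1 := emb_remove (u := w) hφ
  have h2 : z ∈ Av G H (update φ w none) w := by rw [Av_update]; exact hz
  have h3 := emb_update h1 hw h2
  rwa [update_idem] at h3

lemma XX_reloc (tri : ∀ a b c : V, H.Adj a b → H.Adj b c → ¬ H.Adj a c)
    {k : ℝ} (hk0 : 0 < k)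
    (hk : ∀ z : V, ((univ.filter (fun x => H.Adj z x)).card : ℝ) + 1 ≤ k)
    {S D : Finset U} (hDS : D ⊆ S) (hD : (D.card : ℝ) ≤ k) {j : ℕ} {M : ℝ}
    {φ : U → Option V} {y : V} {w : U} {z : V}
    (hX : (φ, y) ∈ XX G H k S D (j + 1) M) (hw : w ∈ Wt H D φ y) (hz : z ∈ Av G H φ w)
    (hyz : ¬ H.Adj y z) :
    (update φ w (some z), y) ∈ XX G H k S D j ((8 * M + 1) / 7) := by
  rw [mem_XX] at hX ⊢
  obtain ⟨h1, h2, h3, h4⟩ := hX
  obtain ⟨hwD, x, hx, hyx⟩ := mem_Wt.1 hw
  refine ⟨emb_reloc h1 (hDS hwD) hz, ?_, ?_, ?_⟩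
  · rw [Wt_reloc hyz, Finset.card_erase_of_mem hw, h2]
    rfl
  · intro u hu
    rw [Wt_reloc hyz, Finset.mem_erase] at hu
    have h5 := h3 u hu.2
    have h6 := Av_drop_card hk (G := G) (φ := φ) (w := w) (z := z) u
    push_cast at h5
    linarith
  · have h5 := RR_drift (G := G) tri hk0 hk hD hx hyx (z := z)
    have h6 : (8 * RR G H (8 * k) D φ y + 1) / 7 ≤ (8 * M + 1) / 7 := by linarith
    exact h5.trans h6

/-- The flow function used in the double count. -/
def FF (G : SimpleGraph U) (H : SimpleGraph V) (k : ℝ) (S D : Finset U) (j : ℕ) (M : ℝ) (y : V)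
    (w : U) (φ φ' : U → Option V) : ℝ :=
  if (φ, y) ∈ XX G H k S D (j + 1) M ∧ w ∈ Wt H D φ y ∧ (∃ z, φ' w = some z ∧ ¬ H.Adj y z)
    then 1 / mx G H (8 * k) φ w else 0

lemma mx_update {k : ℝ} (φ : U → Option V) (w : U) (o : Option V) :
    mx G H (8 * k) (update φ w o) w = mx G H (8 * k) φ w := by
  unfold mx
  rw [Av_update]

lemma flow_lower {k : ℝ} (hk0 : 0 < k)
    (hk : ∀ z : V, ((univ.filter (fun x => H.Adj z x)).card : ℝ) + 1 ≤ k)
    {S D : Finset U} {j : ℕ} {M : ℝ} {y : V} {φ : U → Option V} :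
    (if (φ, y) ∈ XX G H k S D (j + 1) M then (7 / 8 : ℝ) * (j + 1) else 0) ≤
    ∑ w ∈ D, ∑ z ∈ Av G H φ w, FF G H k S D j M y w φ (update φ w (some z)) := by
  split_ifs with hX
  · have hX' := hX
    rw [mem_XX] at hX
    obtain ⟨h1, h2, h3, h4⟩ := hX
    have hsub : Wt H D φ y ⊆ D := Finset.filter_subset _ _
    have key : ∀ w ∈ Wt H D φ y, (7 / 8 : ℝ) ≤
        ∑ z ∈ Av G H φ w, FF G H k S D j M y w φ (update φ w (some z)) := by
      intro w hw
      have h5 := h3 w hw
      obtain ⟨hm1, hm2⟩ := mx_pos (G := G) (H := H) hk0 φ w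
      have e1 : ∑ z ∈ Av G H φ w, FF G H k S D j M y w φ (update φ w (some z)) =
          ∑ z ∈ Av G H φ w, if ¬ H.Adj y z then 1 / mx G H (8 * k) φ w else 0 := by
        refine Finset.sum_congr rfl fun z _ => ?_
        unfold FF
        have : ((φ, y) ∈ XX G H k S D (j + 1) M ∧ w ∈ Wt H D φ y ∧
            (∃ z', (update φ w (some z)) w = some z' ∧ ¬ H.Adj y z')) ↔ ¬ H.Adj y z := by
          constructor
          · rintro ⟨_, _, z', hz', h⟩
            rw [update_self] at hz'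
            cases hz'
            exact h
          · intro h
            exact ⟨hX', hw, z, by rw [update_self], h⟩
        simp only [this]
      rw [e1, ← Finset.sum_filter, Finset.sum_const, nsmul_eq_mul, mul_one_div]
      have hmx : mx G H (8 * k) φ w = ((Av G H φ w).card : ℝ) := by
        unfold mx
        apply max_eq_left
        have : (0 : ℝ) ≤ (j + 1 : ℕ) * k := by positivity
        linarith
      rw [le_div_iff₀ hm2]
      have hc : ((Av G H φ w).card : ℝ) ≤ (((Av G H φ w).filter (fun z => ¬ H.Adj y z)).card : ℝ)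
          + ((univ.filter (fun x => H.Adj y x)).card : ℝ) := by
        have h6 := Finset.card_filter_add_card_filter_not (s := Av G H φ w) (fun z => H.Adj y z)
        have h7 : ((Av G H φ w).filter (fun z => H.Adj y z)).card ≤
            (univ.filter (fun x => H.Adj y x)).card :=
          Finset.card_le_card (Finset.filter_subset_filter _ (Finset.subset_univ _))
        have h8 : (Av G H φ w).card ≤ ((Av G H φ w).filter (fun z => ¬ H.Adj y z)).card +
          (univ.filter (fun x => H.Adj y x)).card := by omega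
        exact_mod_cast h8
      have h9 := hk y
      rw [hmx]
      rw [hmx] at hm1
      linarith
    calc (7 / 8 : ℝ) * (j + 1) = ∑ w ∈ Wt H D φ y, (7 / 8 : ℝ) := by
          rw [Finset.sum_const, h2, nsmul_eq_mul]; push_cast; ring
      _ ≤ ∑ w ∈ Wt H D φ y, ∑ z ∈ Av G H φ w, FF G H k S D j M y w φ (update φ w (some z)) :=
          Finset.sum_le_sum key
      _ ≤ _ := by
          refine Finset.sum_le_sum_of_subset_of_nonneg hsub fun w _ _ => ?_
          refine Finset.sum_nonneg fun z _ => ?_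
          unfold FF
          have := (mx_pos (G := G) (H := H) hk0 φ w).2
          split_ifs <;> positivity
  · refine Finset.sum_nonneg fun w _ => Finset.sum_nonneg fun z _ => ?_
    unfold FF
    have := (mx_pos (G := G) (H := H) hk0 φ w).2
    split_ifs <;> positivity

lemma flow_upper (tri : ∀ a b c : V, H.Adj a b → H.Adj b c → ¬ H.Adj a c)
    {k : ℝ} (hk0 : 0 < k)
    (hk : ∀ z : V, ((univ.filter (fun x => H.Adj z x)).card : ℝ) + 1 ≤ k)
    {S D : Finset U} (hDS : D ⊆ S) (hD : (D.card : ℝ) ≤ k) {j : ℕ} {M : ℝ} {y : V}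
    {φ : U → Option V} (hφ : φ ∈ Emb G H S) :
    ∑ w ∈ D, ∑ x ∈ Av G H φ w, FF G H k S D j M y w (update φ w (some x)) φ ≤
    (if (φ, y) ∈ XX G H k S D j ((8 * M + 1) / 7) then (8 * M + 1) / 7 else 0) := by
  have key : ∀ w ∈ D, ∀ x ∈ Av G H φ w, FF G H k S D j M y w (update φ w (some x)) φ ≤
      if (φ, y) ∈ XX G H k S D j ((8 * M + 1) / 7) then
        (if H.Adj y x then 1 / mx G H (8 * k) φ w else 0) else 0 := by
    intro w hw x hx
    unfold FF
    rw [mx_update]
    have hm := (mx_pos (G := G) (H := H) hk0 φ w).2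
    by_cases h : (update φ w (some x), y) ∈ XX G H k S D (j + 1) M ∧
        w ∈ Wt H D (update φ w (some x)) y ∧ (∃ z, φ w = some z ∧ ¬ H.Adj y z)
    · rw [if_pos h]
      obtain ⟨h1, h2, z, hz, hyz⟩ := h
      obtain ⟨_, x', hx', hyx⟩ := mem_Wt.1 h2
      rw [update_self] at hx'
      cases hx'
      have hzav : z ∈ Av G H (update φ w (some x)) w := by
        rw [Av_update]
        exact mem_Av_self hφ hz
      have h3 := XX_reloc tri hk0 hk hDS hD h1 h2 hzav hyz
      rw [update_idem, ← hz, update_eq_self] at h3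
      rw [if_pos h3, if_pos hyx]
    · rw [if_neg h]
      split_ifs <;> positivity
  refine (Finset.sum_le_sum fun w hw => Finset.sum_le_sum (key w hw)).trans ?_
  split_ifs with hX
  · have h4 := (mem_XX.1 hX).2.2.2
    refine le_trans (le_of_eq ?_) h4
    unfold RR
    refine Finset.sum_congr rfl fun w _ => ?_
    rw [← Finset.sum_filter, Finset.sum_const, nsmul_eq_mul, mul_one_div]
    rfl
  · simp

/-- The chain inequality. -/
lemma chain (tri : ∀ a b c : V, H.Adj a b → H.Adj b c → ¬ H.Adj a c)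
    {k : ℝ} (hk0 : 0 < k)
    (hk : ∀ z : V, ((univ.filter (fun x => H.Adj z x)).card : ℝ) + 1 ≤ k)
    {S D : Finset U} (hDS : D ⊆ S) (hD : (D.card : ℝ) ≤ k) (j : ℕ) (M : ℝ) :
    (7 / 8 : ℝ) * (j + 1) * ((XX G H k S D (j + 1) M).card : ℝ) ≤
      (8 * M + 1) / 7 * ((XX G H k S D j ((8 * M + 1) / 7)).card : ℝ) := by
  have hcount : ∀ (i : ℕ) (N c : ℝ), c * ((XX G H k S D i N).card : ℝ) =
      ∑ y : V, ∑ φ ∈ Emb G H S, if (φ, y) ∈ XX G H k S D i N then c else 0 := by
    intro i N c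
    rw [Finset.sum_comm, ← Finset.sum_product', ← Finset.sum_filter, Finset.sum_const,
      nsmul_eq_mul, mul_comm]
    congr 2
    congr 1
    ext p
    obtain ⟨φ, y⟩ := p
    rw [Finset.mem_filter]
    constructor
    · intro h
      refine ⟨?_, h⟩
      rw [Finset.mem_product]
      exact ⟨(mem_XX.1 h).1, Finset.mem_univ _⟩
    · intro h
      exact h.2
  rw [hcount, hcount]
  refine Finset.sum_le_sum fun y _ => ?_
  calc ∑ φ ∈ Emb G H S, (if (φ, y) ∈ XX G H k S D (j + 1) M then (7 / 8 : ℝ) * (j + 1) else 0)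
      ≤ ∑ φ ∈ Emb G H S, ∑ w ∈ D, ∑ z ∈ Av G H φ w,
          FF G H k S D j M y w φ (update φ w (some z)) :=
        Finset.sum_le_sum fun φ _ => flow_lower hk0 hk
    _ = ∑ w ∈ D, ∑ φ ∈ Emb G H S, ∑ z ∈ Av G H φ w,
          FF G H k S D j M y w φ (update φ w (some z)) := Finset.sum_comm
    _ = ∑ w ∈ D, ∑ φ ∈ Emb G H S, ∑ x ∈ Av G H φ w,
          FF G H k S D j M y w (update φ w (some x)) φ :=
        Finset.sum_congr rfl fun w hw => reversible (hDS hw) (FF G H k S D j M y w)
    _ = ∑ φ ∈ Emb G H S, ∑ w ∈ D, ∑ x ∈ Av G H φ w,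
          FF G H k S D j M y w (update φ w (some x)) φ := Finset.sum_comm
    _ ≤ _ := Finset.sum_le_sum fun φ hφ => flow_upper tri hk0 hk hDS hD hφ

end

end Pool.Agent.H60.Ram3
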