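import Mathlib

set_option autoImplicit false

namespace Pool.Agent.H60.Ram3

/-- Bound for the number of pairs with `j` conflicts and resampling sum at most `M`. -/
def CC : ℕ → ℚ → ℚ
  | 0, _ => 1
  | (j + 1), M => ((8 * M + 1) / 7) * (8 / 7) / ((j : ℚ) + 1) * CC j ((8 * M + 1) / 7)

/-- The contribution of the threshold `i/8` and of the number `j` of conflicts. -/
def term (i j : ℕ) : ℚ :=
  if 0 ≤ ((i : ℚ) + 1) / 8 - 3 / 2 * (j : ℚ) then CC j (((i : ℚ) + 1) / 8 - 3 / 2 * (j : ℚ)) else 0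

/-- The total contribution. -/
def SS : ℚ := ∑ i ∈ Finset.range 59, ∑ j ∈ Finset.range 5, term i j

lemma CC_nonneg (j : ℕ) : ∀ M : ℚ, 0 ≤ M → 0 ≤ CC j M := by
  induction j with
  | zero => intro M _; simp [CC]
  | succ j ih =>
    intro M hM
    have h1 : 0 ≤ (8 * M + 1) / 7 := by positivity
    have h2 := ih _ h1
    rw [CC]
    positivity

lemma SS_le : SS ≤ 633 := by
  decide +kernel

end Pool.Agent.H60.Ram3
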