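import Pool.Agent.H60.Ram3.Chain
import Pool.Agent.H60.Ram3.Num

set_option autoImplicit false

open Finset Function
open scoped Classical

namespace Pool.Agent.H60.Ram3

noncomputable section

variable {U V : Type} [Fintype U] [Fintype V]
variable {G : SimpleGraph U} {H : SimpleGraph V}

lemma XX_zero_le {k : ℝ} {S D : Finset U} {M : ℝ} :
    ((XX G H k S D 0 M).card : ℝ) ≤ ((ZZ G H S D).card : ℝ) := by
  have : XX G H k S D 0 M ⊆ ZZ G H S D := by
    intro p hp
    rw [XX, Finset.mem_filter] at hp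
    rw [ZZ, Finset.mem_filter]
    exact ⟨hp.1, Finset.card_eq_zero.1 hp.2.1⟩
  exact_mod_cast Finset.card_le_card this

lemma XX_le (tri : ∀ a b c : V, H.Adj a b → H.Adj b c → ¬ H.Adj a c)
    {k : ℝ} (hk0 : 0 < k)
    (hk : ∀ z : V, ((univ.filter (fun x => H.Adj z x)).card : ℝ) + 1 ≤ k)
    {S D : Finset U} (hDS : D ⊆ S) (hD : (D.card : ℝ) ≤ k) (j : ℕ) :
    ∀ M : ℚ, 0 ≤ M → ((XX G H k S D j (M : ℝ)).card : ℝ) ≤
      ((CC j M : ℚ) : ℝ) * ((ZZ G H S D).card : ℝ) := by
  induction j with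
  | zero =>
    intro M _
    have : ((CC 0 M : ℚ) : ℝ) = 1 := by simp [CC]
    rw [this, one_mul]
    exact XX_zero_le
  | succ j ih =>
    intro M hM
    have h1 : 0 ≤ (8 * M + 1) / 7 := by positivity
    have h2 := ih _ h1
    have h3 := chain (G := G) tri hk0 hk hDS hD j (M : ℝ)
    have e1 : (((8 * M + 1) / 7 : ℚ) : ℝ) = (8 * (M : ℝ) + 1) / 7 := by push_cast; ring
    rw [e1] at h2
    have h4 : (0 : ℝ) ≤ (8 * (M : ℝ) + 1) / 7 := by
      rw [← e1]; exact_mod_cast h1
    have e2 : ((CC (j + 1) M : ℚ) : ℝ) = ((8 * (M : ℝ) + 1) / 7) * (8 / 7) / ((j : ℝ) + 1) *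
        ((CC j ((8 * M + 1) / 7) : ℚ) : ℝ) := by
      rw [CC]; push_cast; ring
    have h5 := h3.trans (mul_le_mul_of_nonneg_left h2 h4)
    rw [e2]
    have hj : (0 : ℝ) < (j : ℝ) + 1 := by positivity
    have e3 : (8 * (M : ℝ) + 1) / 7 * (8 / 7) / ((j : ℝ) + 1) *
        ((CC j ((8 * M + 1) / 7) : ℚ) : ℝ) * ((ZZ G H S D).card : ℝ) =
        ((8 * (M : ℝ) + 1) / 7 * (((CC j ((8 * M + 1) / 7) : ℚ) : ℝ) *
          ((ZZ G H S D).card : ℝ))) / ((7 / 8 : ℝ) * (j + 1)) := by
      field_simp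
    rw [e3, le_div_iff₀ (by positivity), mul_comm]
    exact h5

lemma XX_neg {k : ℝ} (hk0 : 0 < k) {S D : Finset U} {j : ℕ} {M : ℝ} (hM : M < 0) :
    XX G H k S D j M = ∅ := by
  rw [XX, Finset.filter_eq_empty_iff]
  rintro p _ ⟨_, _, h⟩
  have := RR_nonneg (G := G) (H := H) hk0 D p.1 p.2
  linarith

/-- There is a conflict at an inflexible guest. -/
def IsBad (G : SimpleGraph U) (H : SimpleGraph V) (k : ℝ) (D : Finset U)
    (φ : U → Option V) (y : V) : Prop :=
  ∃ w ∈ Wt H D φ y, ((Av G H φ w).card : ℝ) < 12 * k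

/-- Pairs with a conflict at an inflexible guest. -/
def BB (G : SimpleGraph U) (H : SimpleGraph V) (k : ℝ) (S D : Finset U) :
    Finset ((U → Option V) × V) :=
  (Emb G H S ×ˢ univ).filter (fun p => IsBad G H k D p.1 p.2)

lemma card_pairs {S : Finset U} (P : (U → Option V) → V → Prop) :
    ((((Emb G H S) ×ˢ (univ : Finset V)).filter (fun p => P p.1 p.2)).card : ℝ) =
      ∑ φ ∈ Emb G H S, ∑ y : V, if P φ y then (1 : ℝ) else 0 := by
  rw [← Finset.sum_product', Finset.sum_boole]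

/-- Few embeddings leave few choices for a given guest. -/
lemma inflexible {S : Finset U} {u : U} (hu : u ∈ S) {l a : ℝ} (ha : 0 ≤ a)
    (hl : l * ((Emb G H (S.erase u)).card : ℝ) ≤ ((Emb G H S).card : ℝ)) :
    l * (∑ φ ∈ Emb G H S, if ((Av G H φ u).card : ℝ) < a then (1 : ℝ) else 0) ≤
      a * ((Emb G H S).card : ℝ) := by
  rcases le_or_gt l 0 with hl0 | hl0
  · have h1 : (0 : ℝ) ≤ ∑ φ ∈ Emb G H S, if ((Av G H φ u).card : ℝ) < a then (1 : ℝ) else 0 :=
      Finset.sum_nonneg fun φ _ => by split_ifs <;> norm_num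
    have h2 : l * (∑ φ ∈ Emb G H S, if ((Av G H φ u).card : ℝ) < a then (1 : ℝ) else 0) ≤ 0 :=
      mul_nonpos_of_nonpos_of_nonneg hl0 h1
    have h3 : 0 ≤ a * ((Emb G H S).card : ℝ) := by positivity
    linarith
  have h1 := resample (G := G) (H := H) hu
    (fun φ => if ((Av G H φ u).card : ℝ) < a then (1 : ℝ) else 0)
  rw [h1]
  simp only [Av_update]
  have h2 : ∀ ψ ∈ Emb G H (S.erase u),
      (∑ y ∈ Av G H ψ u, if ((Av G H ψ u).card : ℝ) < a then (1 : ℝ) else 0) ≤ a := by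
    intro ψ _
    rw [Finset.sum_const, nsmul_eq_mul]
    split_ifs with h
    · linarith
    · simpa using ha
  have h3 := Finset.sum_le_sum h2
  rw [Finset.sum_const, nsmul_eq_mul] at h3
  calc l * ∑ ψ ∈ Emb G H (S.erase u),
        (∑ y ∈ Av G H ψ u, if ((Av G H ψ u).card : ℝ) < a then (1 : ℝ) else 0)
      ≤ l * (((Emb G H (S.erase u)).card : ℝ) * a) := mul_le_mul_of_nonneg_left h3 hl0.le
    _ = a * (l * ((Emb G H (S.erase u)).card : ℝ)) := by ring
    _ ≤ a * ((Emb G H S).card : ℝ) := mul_le_mul_of_nonneg_left hl ha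

lemma adj_count_le {k : ℝ}
    (hk : ∀ z : V, ((univ.filter (fun x => H.Adj z x)).card : ℝ) + 1 ≤ k) (z : V) :
    ∑ y : V, (if H.Adj y z then (1 : ℝ) else 0) ≤ k := by
  rw [Finset.sum_boole]
  have h1 : univ.filter (fun y => H.Adj y z) = univ.filter (fun y => H.Adj z y) := by
    ext y; simp [H.adj_comm]
  rw [h1]
  have := hk z
  linarith

lemma BB_le {k : ℝ} (hk0 : 0 < k)
    (hk : ∀ z : V, ((univ.filter (fun x => H.Adj z x)).card : ℝ) + 1 ≤ k)
    {S D : Finset U} (hDS : D ⊆ S)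
    (hl : ∀ u ∈ S, (150 * k) * ((Emb G H (S.erase u)).card : ℝ) ≤ ((Emb G H S).card : ℝ)) :
    ((BB G H k S D).card : ℝ) ≤ 2 / 25 * (D.card : ℝ) * k * ((Emb G H S).card : ℝ) := by
  have h1 : ((BB G H k S D).card : ℝ) = ∑ φ ∈ Emb G H S, ∑ y : V,
      if IsBad G H k D φ y then (1 : ℝ) else 0 :=
    card_pairs (fun φ y => IsBad G H k D φ y)
  have h2 : ∀ φ ∈ Emb G H S, (∑ y : V,
      if IsBad G H k D φ y then (1 : ℝ) else 0) ≤
      ∑ u ∈ D, k * (if ((Av G H φ u).card : ℝ) < 12 * k then (1 : ℝ) else 0) := by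
    intro φ hφ
    have h3 : ∀ y : V, (if IsBad G H k D φ y then (1 : ℝ) else 0) ≤
        ∑ u ∈ D, (if ((Av G H φ u).card : ℝ) < 12 * k then
          (if (∃ x, φ u = some x ∧ H.Adj y x) then (1 : ℝ) else 0) else 0) := by
      intro y
      have hnn : ∀ u ∈ D, (0 : ℝ) ≤ (if ((Av G H φ u).card : ℝ) < 12 * k then
          (if (∃ x, φ u = some x ∧ H.Adj y x) then (1 : ℝ) else 0) else 0) := by
        intro u _
        split_ifs <;> norm_num
      split_ifs with h
      · obtain ⟨w, hw, hc⟩ := h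
        obtain ⟨hwD, hx⟩ := mem_Wt.1 hw
        refine le_trans ?_ (Finset.single_le_sum hnn hwD)
        rw [if_pos hc, if_pos hx]
      · exact Finset.sum_nonneg hnn
    refine (Finset.sum_le_sum fun y _ => h3 y).trans ?_
    rw [Finset.sum_comm]
    refine Finset.sum_le_sum fun u hu => ?_
    obtain ⟨x, hx⟩ := some_of_mem hφ (hDS hu)
    split_ifs with hc
    · rw [mul_one]
      refine le_trans (le_of_eq ?_) (adj_count_le hk x)
      refine Finset.sum_congr rfl fun y _ => ?_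
      have : (∃ x', φ u = some x' ∧ H.Adj y x') ↔ H.Adj y x := by
        rw [hx]
        constructor
        · rintro ⟨x', h, h'⟩
          cases h
          exact h'
        · intro h
          exact ⟨x, rfl, h⟩
      simp only [this]
    · simp
  rw [h1]
  refine (Finset.sum_le_sum h2).trans ?_
  rw [Finset.sum_comm]
  have h4 : ∀ u ∈ D, (∑ φ ∈ Emb G H S,
      k * (if ((Av G H φ u).card : ℝ) < 12 * k then (1 : ℝ) else 0)) ≤
      2 / 25 * k * ((Emb G H S).card : ℝ) := by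
    intro u hu
    have h5 := inflexible (G := G) (H := H) (hDS hu) (a := 12 * k) (by positivity)
      (hl u (hDS hu))
    rw [← Finset.mul_sum]
    nlinarith [h5]
  refine (Finset.sum_le_sum h4).trans ?_
  rw [Finset.sum_const, nsmul_eq_mul]
  exact le_of_eq (by ring)

/-- The total number of conflicts. -/
lemma sumW_le {k : ℝ}
    (hk : ∀ z : V, ((univ.filter (fun x => H.Adj z x)).card : ℝ) + 1 ≤ k)
    {S D : Finset U} (hDS : D ⊆ S) :
    ∑ φ ∈ Emb G H S, ∑ y : V, ((Wt H D φ y).card : ℝ) ≤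
      (D.card : ℝ) * k * ((Emb G H S).card : ℝ) := by
  have h2 : ∀ φ ∈ Emb G H S, (∑ y : V, ((Wt H D φ y).card : ℝ)) ≤ (D.card : ℝ) * k := by
    intro φ hφ
    have h3 : ∀ y : V, ((Wt H D φ y).card : ℝ) =
        ∑ u ∈ D, (if (∃ x, φ u = some x ∧ H.Adj y x) then (1 : ℝ) else 0) := by
      intro y
      rw [Finset.sum_boole]
      rfl
    simp only [h3]
    rw [Finset.sum_comm]
    have h4 : ∀ u ∈ D, (∑ y : V, (if (∃ x, φ u = some x ∧ H.Adj y x) then (1 : ℝ) else 0)) ≤ k := by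
      intro u hu
      obtain ⟨x, hx⟩ := some_of_mem hφ (hDS hu)
      refine le_trans (le_of_eq ?_) (adj_count_le hk x)
      refine Finset.sum_congr rfl fun y _ => ?_
      have : (∃ x', φ u = some x' ∧ H.Adj y x') ↔ H.Adj y x := by
        rw [hx]
        constructor
        · rintro ⟨x', h, h'⟩
          cases h
          exact h'
        · intro h
          exact ⟨x, rfl, h⟩
      simp only [this]
    refine (Finset.sum_le_sum h4).trans ?_
    rw [Finset.sum_const, nsmul_eq_mul]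
  refine (Finset.sum_le_sum h2).trans ?_
  rw [Finset.sum_const, nsmul_eq_mul]
  exact le_of_eq (by ring)

/-- The resampling sum is on average at most the number of conflicts. -/
lemma sumR_le {k : ℝ} (hk0 : 0 < k) {S D : Finset U} (hDS : D ⊆ S) :
    ∑ φ ∈ Emb G H S, ∑ y : V, RR G H (8 * k) D φ y ≤
      ∑ φ ∈ Emb G H S, ∑ y : V, ((Wt H D φ y).card : ℝ) := by
  have h3 : ∀ (φ : U → Option V) (y : V), ((Wt H D φ y).card : ℝ) =
      ∑ u ∈ D, (if (∃ x, φ u = some x ∧ H.Adj y x) then (1 : ℝ) else 0) := by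
    intro φ y
    rw [Finset.sum_boole]
    rfl
  simp only [h3, RR]
  rw [Finset.sum_comm]
  rw [Finset.sum_comm (s := Emb G H S) (t := univ)]
  refine Finset.sum_le_sum fun y _ => ?_
  rw [Finset.sum_comm]
  rw [Finset.sum_comm (s := Emb G H S) (t := D)]
  refine Finset.sum_le_sum fun u hu => ?_
  rw [resample (hDS hu), resample (hDS hu)]
  refine Finset.sum_le_sum fun ψ _ => ?_
  have e1 : ∀ x ∈ Av G H ψ u, ((AvI G H (update ψ u (some x)) u y).card : ℝ) /
      mx G H (8 * k) (update ψ u (some x)) u =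
      ((AvI G H ψ u y).card : ℝ) / mx G H (8 * k) ψ u := by
    intro x _
    rw [mx_update]
    unfold AvI
    rw [Av_update]
  rw [Finset.sum_congr rfl e1, Finset.sum_const, nsmul_eq_mul]
  have e2 : ∑ x ∈ Av G H ψ u,
      (if (∃ x', update ψ u (some x) u = some x' ∧ H.Adj y x') then (1 : ℝ) else 0) =
      ((AvI G H ψ u y).card : ℝ) := by
    unfold AvI
    rw [← Finset.sum_boole]
    refine Finset.sum_congr rfl fun x _ => ?_
    have : (∃ x', update ψ u (some x) u = some x' ∧ H.Adj y x') ↔ H.Adj y x := by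
      rw [update_self]
      constructor
      · rintro ⟨x', h, h'⟩
        cases h
        exact h'
      · intro h
        exact ⟨x, rfl, h⟩
    simp only [this]
  rw [e2]
  obtain ⟨_, hm⟩ := mx_pos (G := G) (H := H) hk0 ψ u
  have hle : ((Av G H ψ u).card : ℝ) ≤ mx G H (8 * k) ψ u := le_max_left _ _
  rw [mul_div_assoc', div_le_iff₀ hm, mul_comm]
  exact mul_le_mul_of_nonneg_left hle (by positivity)

end

end Pool.Agent.H60.Ram3
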