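import Pool.Agent.H60.Ram3.Count

set_option autoImplicit false

open Finset Function
open scoped Classical

namespace Pool.Agent.H60.Ram3

noncomputable section

variable {U V : Type} [Fintype U] [Fintype V]
variable {G : SimpleGraph U} {H : SimpleGraph V}

lemma thr (F : ℝ) (hF : 0 ≤ F) :
    ∑ i ∈ range 59, (if ((i : ℝ) + 1) / 8 < F then (1 : ℝ) else 0) ≤ 8 * F := by
  rw [Finset.sum_boole]
  have hsub : (range 59).filter (fun i : ℕ => ((i : ℝ) + 1) / 8 < F) ⊆ range ⌊8 * F⌋₊ := by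
    intro i hi
    rw [Finset.mem_filter] at hi
    rw [Finset.mem_range]
    have h1 : ((i + 1 : ℕ) : ℝ) ≤ 8 * F := by
      have := hi.2
      push_cast
      linarith
    have h2 : i + 1 ≤ ⌊8 * F⌋₊ := Nat.le_floor h1
    omega
  have h3 := Finset.card_le_card hsub
  rw [Finset.card_range] at h3
  have h4 : ((⌊8 * F⌋₊ : ℕ) : ℝ) ≤ 8 * F := Nat.floor_le (by positivity)
  have h5 : ((((range 59).filter (fun i : ℕ => ((i : ℝ) + 1) / 8 < F)).card : ℕ) : ℝ) ≤
      ((⌊8 * F⌋₊ : ℕ) : ℝ) := by exact_mod_cast h3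
  linarith

/-- The statistic used in the count. -/
def FS (G : SimpleGraph U) (H : SimpleGraph V) (k : ℝ) (D : Finset U)
    (φ : U → Option V) (y : V) : ℝ :=
  3 / 2 * ((Wt H D φ y).card : ℝ) + RR G H (8 * k) D φ y

lemma FS_nonneg {k : ℝ} (hk0 : 0 < k) (D : Finset U) (φ : U → Option V) (y : V) :
    0 ≤ FS G H k D φ y := by
  unfold FS
  have := RR_nonneg (G := G) (H := H) hk0 D φ y
  positivity

lemma point_split {k : ℝ} (hk0 : 0 < k) {S D : Finset U} {i : ℕ} (hi : i < 59)
    {φ : U → Option V} (hφ : φ ∈ Emb G H S) (y : V) :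
    (1 : ℝ) ≤ (if ((i : ℝ) + 1) / 8 < FS G H k D φ y then (1 : ℝ) else 0) +
      (if IsBad G H k D φ y then (1 : ℝ) else 0) +
      ∑ j ∈ range 5, (if (φ, y) ∈ XX G H k S D j (((i : ℝ) + 1) / 8 - 3 / 2 * (j : ℝ))
        then (1 : ℝ) else 0) := by
  have hnn : ∀ j ∈ range 5, (0 : ℝ) ≤
      (if (φ, y) ∈ XX G H k S D j (((i : ℝ) + 1) / 8 - 3 / 2 * (j : ℝ))
        then (1 : ℝ) else 0) := by
    intro j _
    split_ifs <;> norm_num
  have hs := Finset.sum_nonneg hnn
  by_cases h1 : ((i : ℝ) + 1) / 8 < FS G H k D φ y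
  · rw [if_pos h1]
    have : (0 : ℝ) ≤ (if IsBad G H k D φ y then (1 : ℝ) else 0) := by split_ifs <;> norm_num
    linarith
  by_cases h2 : IsBad G H k D φ y
  · rw [if_pos h2, if_neg h1]
    linarith
  rw [if_neg h1, if_neg h2]
  rw [not_lt] at h1
  unfold FS at h1
  have hR := RR_nonneg (G := G) (H := H) hk0 D φ y
  have hi' : (i : ℝ) + 1 ≤ 59 := by exact_mod_cast hi
  have hj : (Wt H D φ y).card < 5 := by
    by_contra hcon
    rw [not_lt] at hcon
    have : (5 : ℝ) ≤ ((Wt H D φ y).card : ℝ) := by exact_mod_cast hcon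
    linarith
  have hmem : (φ, y) ∈ XX G H k S D (Wt H D φ y).card
      (((i : ℝ) + 1) / 8 - 3 / 2 * ((Wt H D φ y).card : ℝ)) := by
    rw [mem_XX]
    refine ⟨hφ, rfl, ?_, by linarith⟩
    intro w hw
    have h3 : ¬ ((Av G H φ w).card : ℝ) < 12 * k := fun h => h2 ⟨w, hw, h⟩
    rw [not_lt] at h3
    have h4 : ((Wt H D φ y).card : ℝ) ≤ 4 := by
      have : (Wt H D φ y).card ≤ 4 := by omega
      exact_mod_cast this
    nlinarith
  have h5 := Finset.single_le_sum hnn (Finset.mem_range.2 hj)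
  rw [if_pos hmem] at h5
  linarith

lemma card_XX_eq {k : ℝ} {S D : Finset U} {j : ℕ} {M : ℝ} :
    ((XX G H k S D j M).card : ℝ) =
      ∑ φ ∈ Emb G H S, ∑ y : V, if (φ, y) ∈ XX G H k S D j M then (1 : ℝ) else 0 := by
  rw [← Finset.sum_product', Finset.sum_boole]
  congr 2
  ext p
  obtain ⟨φ, y⟩ := p
  rw [Finset.mem_filter]
  constructor
  · intro h
    refine ⟨?_, h⟩
    rw [Finset.mem_product]
    exact ⟨(mem_XX.1 h).1, Finset.mem_univ _⟩
  · intro h
    exact h.2

lemma XX_term (tri : ∀ a b c : V, H.Adj a b → H.Adj b c → ¬ H.Adj a c)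
    {k : ℝ} (hk0 : 0 < k)
    (hk : ∀ z : V, ((univ.filter (fun x => H.Adj z x)).card : ℝ) + 1 ≤ k)
    {S D : Finset U} (hDS : D ⊆ S) (hD : (D.card : ℝ) ≤ k) (i j : ℕ) :
    ((XX G H k S D j (((i : ℝ) + 1) / 8 - 3 / 2 * (j : ℝ))).card : ℝ) ≤
      ((term i j : ℚ) : ℝ) * ((ZZ G H S D).card : ℝ) := by
  have e1 : (((((i : ℚ) + 1) / 8 - 3 / 2 * (j : ℚ)) : ℚ) : ℝ) =
      ((i : ℝ) + 1) / 8 - 3 / 2 * (j : ℝ) := by push_cast; ring
  unfold term
  split_ifs with h
  · rw [← e1]
    exact XX_le tri hk0 hk hDS hD j _ h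
  · have h1 : ((i : ℝ) + 1) / 8 - 3 / 2 * (j : ℝ) < 0 := by
      rw [← e1]
      rw [not_le] at h
      exact_mod_cast h
    rw [XX_neg hk0 h1]
    simp

/-- The count over all thresholds. -/
lemma total_count (tri : ∀ a b c : V, H.Adj a b → H.Adj b c → ¬ H.Adj a c)
    {k : ℝ} (hk0 : 0 < k)
    (hk : ∀ z : V, ((univ.filter (fun x => H.Adj z x)).card : ℝ) + 1 ≤ k)
    {S D : Finset U} (hDS : D ⊆ S) (hD : (D.card : ℝ) ≤ k)
    (hl : ∀ u ∈ S, (150 * k) * ((Emb G H (S.erase u)).card : ℝ) ≤ ((Emb G H S).card : ℝ)) :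
    59 * (((Emb G H S).card : ℝ) * (Fintype.card V : ℝ)) ≤
      (618 / 25) * (D.card : ℝ) * k * ((Emb G H S).card : ℝ) +
        633 * ((ZZ G H S D).card : ℝ) := by
  have hB := BB_le hk0 hk hDS hl
  have hW := sumW_le hk hDS (G := G)
  have hR := sumR_le (G := G) (H := H) hk0 hDS
  -- per threshold
  have h1 : ∀ i ∈ range 59, ((Emb G H S).card : ℝ) * (Fintype.card V : ℝ) ≤
      (∑ φ ∈ Emb G H S, ∑ y : V,
        if ((i : ℝ) + 1) / 8 < FS G H k D φ y then (1 : ℝ) else 0) +
      ((BB G H k S D).card : ℝ) +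
      ∑ j ∈ range 5, ((term i j : ℚ) : ℝ) * ((ZZ G H S D).card : ℝ) := by
    intro i hi
    rw [Finset.mem_range] at hi
    have h2 : ((Emb G H S).card : ℝ) * (Fintype.card V : ℝ) =
        ∑ φ ∈ Emb G H S, ∑ y : V, (1 : ℝ) := by
      simp [Finset.sum_const, nsmul_eq_mul]
    have h3 : ∑ φ ∈ Emb G H S, ∑ y : V, (1 : ℝ) ≤ ∑ φ ∈ Emb G H S, ∑ y : V,
        ((if ((i : ℝ) + 1) / 8 < FS G H k D φ y then (1 : ℝ) else 0) +
      (if IsBad G H k D φ y then (1 : ℝ) else 0) +
      ∑ j ∈ range 5, (if (φ, y) ∈ XX G H k S D j (((i : ℝ) + 1) / 8 - 3 / 2 * (j : ℝ))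
        then (1 : ℝ) else 0)) :=
      Finset.sum_le_sum fun φ hφ => Finset.sum_le_sum fun y _ => point_split hk0 hi hφ y
    simp only [Finset.sum_add_distrib] at h3
    have h4 : ((BB G H k S D).card : ℝ) = ∑ φ ∈ Emb G H S, ∑ y : V,
        if IsBad G H k D φ y then (1 : ℝ) else 0 :=
      card_pairs (fun φ y => IsBad G H k D φ y)
    have h5 : ∑ φ ∈ Emb G H S, ∑ y : V, ∑ j ∈ range 5,
        (if (φ, y) ∈ XX G H k S D j (((i : ℝ) + 1) / 8 - 3 / 2 * (j : ℝ)) then (1 : ℝ) else 0) =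
        ∑ j ∈ range 5, ((XX G H k S D j (((i : ℝ) + 1) / 8 - 3 / 2 * (j : ℝ))).card : ℝ) := by
      have : ∀ φ ∈ Emb G H S, ∑ y : V, ∑ j ∈ range 5,
          (if (φ, y) ∈ XX G H k S D j (((i : ℝ) + 1) / 8 - 3 / 2 * (j : ℝ))
            then (1 : ℝ) else 0) = ∑ j ∈ range 5, ∑ y : V,
          (if (φ, y) ∈ XX G H k S D j (((i : ℝ) + 1) / 8 - 3 / 2 * (j : ℝ))
            then (1 : ℝ) else 0) := fun φ _ => Finset.sum_comm
      rw [Finset.sum_congr rfl this, Finset.sum_comm]
      refine Finset.sum_congr rfl fun j _ => ?_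
      rw [card_XX_eq]
    have h6 : ∑ j ∈ range 5,
        ((XX G H k S D j (((i : ℝ) + 1) / 8 - 3 / 2 * (j : ℝ))).card : ℝ) ≤
        ∑ j ∈ range 5, ((term i j : ℚ) : ℝ) * ((ZZ G H S D).card : ℝ) :=
      Finset.sum_le_sum fun j _ => XX_term tri hk0 hk hDS hD i j
    rw [h5] at h3
    rw [h2, h4]
    linarith
  have h7 := Finset.sum_le_sum h1
  rw [Finset.sum_const, Finset.card_range, nsmul_eq_mul] at h7
  simp only [Finset.sum_add_distrib] at h7
  rw [Finset.sum_const, Finset.card_range, nsmul_eq_mul] at h7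
  -- swapping the sums over thresholds
  have h8 : ∑ i ∈ range 59, ∑ φ ∈ Emb G H S, ∑ y : V,
        (if ((i : ℝ) + 1) / 8 < FS G H k D φ y then (1 : ℝ) else 0) ≤
      ∑ φ ∈ Emb G H S, ∑ y : V, 8 * FS G H k D φ y := by
    rw [Finset.sum_comm]
    refine Finset.sum_le_sum fun φ _ => ?_
    rw [Finset.sum_comm]
    refine Finset.sum_le_sum fun y _ => ?_
    exact thr _ (FS_nonneg hk0 D φ y)
  have h9 : ∑ φ ∈ Emb G H S, ∑ y : V, 8 * FS G H k D φ y =
      12 * (∑ φ ∈ Emb G H S, ∑ y : V, ((Wt H D φ y).card : ℝ)) +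
      8 * (∑ φ ∈ Emb G H S, ∑ y : V, RR G H (8 * k) D φ y) := by
    rw [Finset.mul_sum, Finset.mul_sum, ← Finset.sum_add_distrib]
    refine Finset.sum_congr rfl fun φ _ => ?_
    rw [Finset.mul_sum, Finset.mul_sum, ← Finset.sum_add_distrib]
    refine Finset.sum_congr rfl fun y _ => ?_
    unfold FS
    ring
  have h10 : ∑ i ∈ range 59, ∑ j ∈ range 5, ((term i j : ℚ) : ℝ) * ((ZZ G H S D).card : ℝ) =
      ((SS : ℚ) : ℝ) * ((ZZ G H S D).card : ℝ) := by
    unfold SS
    push_cast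
    rw [Finset.sum_mul]
    refine Finset.sum_congr rfl fun i _ => ?_
    rw [Finset.sum_mul]
  have h11 : ((SS : ℚ) : ℝ) ≤ 633 := by exact_mod_cast SS_le
  have h12 : ((SS : ℚ) : ℝ) * ((ZZ G H S D).card : ℝ) ≤ 633 * ((ZZ G H S D).card : ℝ) :=
    mul_le_mul_of_nonneg_right h11 (by positivity)
  rw [h10] at h7
  push_cast at h7
  nlinarith

/-- Hosts with no conflict are available unless they are already used. -/
lemma ZZ_le {S : Finset U} {v : U} {k : ℝ} (hS : (S.card : ℝ) ≤ k) :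
    ((ZZ G H S (S.filter (fun u => G.Adj v u))).card : ℝ) ≤
      (∑ φ ∈ Emb G H S, ((Av G H φ v).card : ℝ)) + k * ((Emb G H S).card : ℝ) := by
  have h1 : ((ZZ G H S (S.filter (fun u => G.Adj v u))).card : ℝ) = ∑ φ ∈ Emb G H S, ∑ y : V,
      if Wt H (S.filter (fun u => G.Adj v u)) φ y = ∅ then (1 : ℝ) else 0 := by
    unfold ZZ
    rw [← Finset.sum_product', Finset.sum_boole]
  have h2 : ∀ φ ∈ Emb G H S, (∑ y : V,
      if Wt H (S.filter (fun u => G.Adj v u)) φ y = ∅ then (1 : ℝ) else 0) ≤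
      ((Av G H φ v).card : ℝ) + k := by
    intro φ hφ
    rw [Finset.sum_boole]
    have hsub : univ.filter (fun y => Wt H (S.filter (fun u => G.Adj v u)) φ y = ∅) ⊆
        Av G H φ v ∪ univ.filter (fun y => ∃ u ∈ S, φ u = some y) := by
      intro y hy
      rw [Finset.mem_filter] at hy
      rw [Finset.mem_union]
      by_cases hu : ∃ u ∈ S, φ u = some y
      · right; simp only [Finset.mem_filter, Finset.mem_univ, true_and]; exact hu
      left
      rw [mem_Av]
      have hdom := (mem_Emb.1 hφ).1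
      refine ⟨fun w _ hw => hu ⟨w, (hdom w).1 (by rw [hw]; simp), hw⟩, ?_⟩
      intro w x hadj hx hxy
      have : w ∈ Wt H (S.filter (fun u => G.Adj v u)) φ y := by
        rw [mem_Wt, Finset.mem_filter]
        exact ⟨⟨(hdom w).1 (by rw [hx]; simp), hadj⟩, x, hx, hxy.symm⟩
      rw [hy.2] at this
      simp at this
    have hused : (univ.filter (fun y : V => ∃ u ∈ S, φ u = some y)).card ≤ S.card := by
      have h3 : (univ.filter (fun y : V => ∃ u ∈ S, φ u = some y)).image
          (fun y => (some y : Option V)) ⊆ S.image φ := by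
        intro o ho
        rw [Finset.mem_image] at ho
        obtain ⟨y, hy, rfl⟩ := ho
        simp only [Finset.mem_filter, Finset.mem_univ, true_and] at hy
        obtain ⟨u, hu, hu'⟩ := hy
        rw [Finset.mem_image]
        exact ⟨u, hu, hu'⟩
      have h4 : ((univ.filter (fun y : V => ∃ u ∈ S, φ u = some y)).image
          (fun y => (some y : Option V))).card =
          (univ.filter (fun y : V => ∃ u ∈ S, φ u = some y)).card :=
        Finset.card_image_of_injective _ (Option.some_injective V)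
      rw [← h4]
      exact (Finset.card_le_card h3).trans Finset.card_image_le
    have h5 := (Finset.card_le_card hsub).trans (Finset.card_union_le _ _)
    have h6 : ((univ.filter (fun y =>
        Wt H (S.filter (fun u => G.Adj v u)) φ y = ∅)).card : ℝ) ≤
        ((Av G H φ v).card : ℝ) + (S.card : ℝ) := by
      exact_mod_cast h5.trans (Nat.add_le_add_left hused _)
    linarith
  rw [h1]
  refine (Finset.sum_le_sum h2).trans (le_of_eq ?_)
  rw [Finset.sum_add_distrib, Finset.sum_const, nsmul_eq_mul]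
  ring

lemma emb_insert {S : Finset U} {v : U} (hv : v ∉ S) :
    ((Emb G H (insert v S)).card : ℝ) = ∑ φ ∈ Emb G H S, ((Av G H φ v).card : ℝ) := by
  have h := resample (G := G) (H := H) (Finset.mem_insert_self v S) (fun _ => (1 : ℝ))
  rw [Finset.erase_insert hv] at h
  simpa using h

/-- The induction. -/
lemma growth (tri : ∀ a b c : V, H.Adj a b → H.Adj b c → ¬ H.Adj a c)
    {k d : ℝ} (hk0 : 0 < k) (hkU : (Fintype.card U : ℝ) ≤ k) (hd : 20000 ≤ d)
    (hk : ∀ z : V, ((univ.filter (fun x => H.Adj z x)).card : ℝ) + 1 ≤ k)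
    (hG : ∀ u : U, ((univ.filter (fun w => G.Adj u w)).card : ℝ) ≤ d)
    (hN : k + k * d / 2 ≤ (Fintype.card V : ℝ)) (n : ℕ) :
    ∀ T : Finset U, T.card = n → ∀ u ∈ T,
      (150 * k) * ((Emb G H (T.erase u)).card : ℝ) ≤ ((Emb G H T).card : ℝ) := by
  induction n with
  | zero =>
    intro T hT u hu
    rw [Finset.card_eq_zero] at hT
    subst hT
    simp at hu
  | succ n ih =>
    intro T hT v hv
    obtain ⟨S, hS⟩ : ∃ S, S = T.erase v := ⟨_, rfl⟩
    have hvS : v ∉ S := by rw [hS]; exact Finset.notMem_erase v T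
    have hins : insert v S = T := by rw [hS]; exact Finset.insert_erase hv
    have hcard : S.card = n := by
      rw [hS, Finset.card_erase_of_mem hv, hT]; rfl
    rw [← hS, ← hins, emb_insert hvS]
    have hl := ih S hcard
    have hDS : S.filter (fun u => G.Adj v u) ⊆ S := Finset.filter_subset _ _
    have hSk : (S.card : ℝ) ≤ k := by
      have : (S.card : ℝ) ≤ (Fintype.card U : ℝ) := by exact_mod_cast Finset.card_le_univ S
      linarith
    have hDk : ((S.filter (fun u => G.Adj v u)).card : ℝ) ≤ k := by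
      have : ((S.filter (fun u => G.Adj v u)).card : ℝ) ≤ (S.card : ℝ) := by
        exact_mod_cast Finset.card_le_card hDS
      linarith
    have hDd : ((S.filter (fun u => G.Adj v u)).card : ℝ) ≤ d := by
      have h1 : (S.filter (fun u => G.Adj v u)).card ≤ (univ.filter (fun u => G.Adj v u)).card :=
        Finset.card_le_card (Finset.filter_subset_filter _ (Finset.subset_univ _))
      have h2 : ((S.filter (fun u => G.Adj v u)).card : ℝ) ≤
          ((univ.filter (fun u => G.Adj v u)).card : ℝ) := by exact_mod_cast h1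
      exact h2.trans (hG v)
    have hc := total_count (G := G) tri hk0 hk hDS hDk hl
    have hz := ZZ_le (G := G) (H := H) (v := v) hSk
    have hE : (0 : ℝ) ≤ ((Emb G H S).card : ℝ) := by positivity
    have h1 : ((Emb G H S).card : ℝ) * (k + k * d / 2) ≤
        ((Emb G H S).card : ℝ) * (Fintype.card V : ℝ) := mul_le_mul_of_nonneg_left hN hE
    have h2 : (618 / 25) * ((S.filter (fun u => G.Adj v u)).card : ℝ) * k *
        ((Emb G H S).card : ℝ) ≤ (618 / 25) * d * k * ((Emb G H S).card : ℝ) := by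
      have := mul_le_mul_of_nonneg_right hDd (mul_nonneg hk0.le hE)
      nlinarith
    have h3 : 20000 * (k * ((Emb G H S).card : ℝ)) ≤ d * (k * ((Emb G H S).card : ℝ)) :=
      mul_le_mul_of_nonneg_right hd (mul_nonneg hk0.le hE)
    nlinarith

lemma emb_empty_pos : 0 < ((Emb G H (∅ : Finset U)).card : ℝ) := by
  have : (fun _ => none : U → Option V) ∈ Emb G H (∅ : Finset U) := by
    rw [mem_Emb]
    refine ⟨fun u => by simp, fun u w x h => by simp at h, fun u w x y _ h => by simp at h⟩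
  exact_mod_cast Finset.card_pos.2 ⟨_, this⟩

lemma emb_pos (tri : ∀ a b c : V, H.Adj a b → H.Adj b c → ¬ H.Adj a c)
    {k d : ℝ} (hk0 : 0 < k) (hkU : (Fintype.card U : ℝ) ≤ k) (hd : 20000 ≤ d)
    (hk : ∀ z : V, ((univ.filter (fun x => H.Adj z x)).card : ℝ) + 1 ≤ k)
    (hG : ∀ u : U, ((univ.filter (fun w => G.Adj u w)).card : ℝ) ≤ d)
    (hN : k + k * d / 2 ≤ (Fintype.card V : ℝ)) (T : Finset U) :
    0 < ((Emb G H T).card : ℝ) := by
  induction T using Finset.induction_on with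
  | empty => exact emb_empty_pos
  | insert v S hv ih =>
    have h := growth (G := G) tri hk0 hkU hd hk hG hN _ (insert v S) rfl v
      (Finset.mem_insert_self v S)
    rw [Finset.erase_insert hv] at h
    have : 0 < 150 * k * ((Emb G H S).card : ℝ) := by positivity
    linarith

/-- Conflict-free injections exist when all degrees of the host are small. -/
lemma exists_of_small (tri : ∀ a b c : V, H.Adj a b → H.Adj b c → ¬ H.Adj a c)
    {k d : ℝ} (hk0 : 0 < k) (hkU : (Fintype.card U : ℝ) ≤ k) (hd : 20000 ≤ d)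
    (hk : ∀ z : V, ((univ.filter (fun x => H.Adj z x)).card : ℝ) + 1 ≤ k)
    (hG : ∀ u : U, ((univ.filter (fun w => G.Adj u w)).card : ℝ) ≤ d)
    (hN : k + k * d / 2 ≤ (Fintype.card V : ℝ)) :
    ∃ f : U → V, Injective f ∧ ∀ u w, G.Adj u w → ¬ H.Adj (f u) (f w) := by
  have h := emb_pos (G := G) tri hk0 hkU hd hk hG hN (univ : Finset U)
  have h' : 0 < (Emb G H (univ : Finset U)).card := by exact_mod_cast h
  obtain ⟨φ, hφ⟩ := Finset.card_pos.1 h'
  have hs : ∀ u, ∃ x, φ u = some x := fun u => some_of_mem hφ (Finset.mem_univ u)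
  choose f hf using hs
  rw [mem_Emb] at hφ
  refine ⟨f, fun u w huw => ?_, fun u w hadj => ?_⟩
  · exact hφ.2.1 u w (f u) (hf u) (by rw [huw]; exact hf w)
  · exact hφ.2.2 u w _ _ hadj (hf u) (hf w)

/-- The embedding theorem: a triangle-free host graph on at least `k + kd/2` vertices has
a complement containing every graph with at most `k` vertices and maximum degree at most `d`. -/
theorem exists_embedding (tri : ∀ a b c : V, H.Adj a b → H.Adj b c → ¬ H.Adj a c)
    {d : ℕ} (hd : 20000 ≤ d)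
    (hG : ∀ u : U, (univ.filter (fun w => G.Adj u w)).card ≤ d)
    (hN : 2 * Fintype.card U + Fintype.card U * d ≤ 2 * Fintype.card V) :
    ∃ f : U → V, Injective f ∧ ∀ u w, G.Adj u w → ¬ H.Adj (f u) (f w) := by
  rcases Nat.eq_zero_or_pos (Fintype.card U) with h0 | h0
  · have : IsEmpty U := Fintype.card_eq_zero_iff.1 h0
    exact ⟨fun u => isEmptyElim u, fun u => isEmptyElim u, fun u => isEmptyElim u⟩
  by_cases hbig : ∃ z : V, Fintype.card U ≤ (univ.filter (fun x => H.Adj z x)).card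
  · obtain ⟨z, hz⟩ := hbig
    obtain ⟨A, hA⟩ : ∃ A : Finset V, A = univ.filter (fun x => H.Adj z x) := ⟨_, rfl⟩
    rw [← hA, ← Fintype.card_coe A] at hz
    obtain ⟨g⟩ := Function.Embedding.nonempty_of_card_le hz
    refine ⟨fun u => (g u : V), fun u w huw => g.injective (Subtype.ext huw), ?_⟩
    intro u w _ hadj
    have h4 : ∀ x : V, x ∈ A → H.Adj z x := by
      intro x hx
      rw [hA] at hx
      simpa using hx
    exact tri z (g u) (g w) (h4 _ (g u).2) hadj (h4 _ (g w).2)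
  · push Not at hbig
    have hk0 : (0 : ℝ) < (Fintype.card U : ℝ) := by exact_mod_cast h0
    refine exists_of_small (G := G) tri (k := (Fintype.card U : ℝ)) (d := (d : ℝ)) hk0 le_rfl
      (by exact_mod_cast hd) ?_ ?_ ?_
    · intro z
      have := hbig z
      exact_mod_cast this
    · intro u
      exact_mod_cast hG u
    · have : (2 * Fintype.card U + Fintype.card U * d : ℝ) ≤ 2 * Fintype.card V := by
        exact_mod_cast hN
      linarith

end

end Pool.Agent.H60.Ram3
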