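import Pool.Agent.H60.Ram3.Basic

set_option autoImplicit false

open Finset Function
open scoped Classical

namespace Pool.Agent.H60.Ram3

noncomputable section

variable {U V : Type} [Fintype U] [Fintype V]
variable (G : SimpleGraph U) (H : SimpleGraph V)

/-- The guests of `D` placed on an `H`-neighbour of `y`. -/
def Wt (D : Finset U) (φ : U → Option V) (y : V) : Finset U :=
  D.filter (fun u => ∃ x, φ u = some x ∧ H.Adj y x)

/-- The part of `Av φ u` adjacent to `y`. -/
def AvI (φ : U → Option V) (u : U) (y : V) : Finset V :=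
  (Av G H φ u).filter (fun x => H.Adj y x)

/-- The number of available hosts, truncated from below at `t0`. -/
def mx (t0 : ℝ) (φ : U → Option V) (u : U) : ℝ := max ((Av G H φ u).card : ℝ) t0

/-- The resampling sum. -/
def RR (t0 : ℝ) (D : Finset U) (φ : U → Option V) (y : V) : ℝ :=
  ∑ u ∈ D, ((AvI G H φ u y).card : ℝ) / mx G H t0 φ u

variable {G H}

lemma mem_Wt {D : Finset U} {φ : U → Option V} {y : V} {u : U} :
    u ∈ Wt H D φ y ↔ u ∈ D ∧ ∃ x, φ u = some x ∧ H.Adj y x := by
  simp [Wt]

lemma Wt_reloc {D : Finset U} {φ : U → Option V} {y : V} {w : U} {z : V}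
    (hz : ¬ H.Adj y z) :
    Wt H D (update φ w (some z)) y = (Wt H D φ y).erase w := by
  ext u
  rw [mem_Wt, Finset.mem_erase, mem_Wt]
  by_cases hu : u = w
  · subst hu
    simp only [update_self, Option.some.injEq, ne_eq, not_true_eq_false, false_and, iff_false]
    rintro ⟨_, x, hx, hadj⟩
    subst hx
    exact hz hadj
  · rw [update_of_ne hu]
    simp [hu]

lemma Av_drop {φ : U → Option V} {w : U} {z : V} (u : U) :
    Av G H φ u ⊆ Av G H (update φ w (some z)) u ∪ insert z (univ.filter (fun x => H.Adj z x)) := by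
  intro y hy
  rw [mem_Av] at hy
  rw [Finset.mem_union, Finset.mem_insert, mem_Av]
  by_cases hyz : y = z
  · exact Or.inr (Or.inl hyz)
  by_cases hadj : H.Adj z y
  · right; right; simp [hadj]
  left
  refine ⟨fun w' hw' => ?_, fun w' x h1 h2 => ?_⟩
  · by_cases h : w' = w
    · subst h
      rw [update_self]
      intro h'
      simp only [Option.some.injEq] at h'
      exact hyz h'.symm
    · rw [update_of_ne h]; exact hy.1 w' hw'
  · by_cases h : w' = w
    · subst h
      rw [update_self] at h2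
      cases h2
      exact hadj
    · rw [update_of_ne h] at h2
      exact hy.2 w' x h1 h2

lemma Av_drop_card {k : ℝ} (hk : ∀ z : V, ((univ.filter (fun x => H.Adj z x)).card : ℝ) + 1 ≤ k)
    {φ : U → Option V} {w : U} {z : V} (u : U) :
    ((Av G H φ u).card : ℝ) - k ≤ ((Av G H (update φ w (some z)) u).card : ℝ) := by
  have h1 := Finset.card_le_card (Av_drop (G := G) (H := H) (φ := φ) (w := w) (z := z) u)
  have h2 := Finset.card_union_le (Av G H (update φ w (some z)) u)
    (insert z (univ.filter (fun x => H.Adj z x)))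
  have h3 := Finset.card_insert_le z (univ.filter (fun x => H.Adj z x))
  have h4 := hk z
  have h5 : ((Av G H φ u).card : ℝ) ≤ ((Av G H (update φ w (some z)) u).card : ℝ)
      + (((univ.filter (fun x => H.Adj z x)).card : ℝ) + 1) := by
    exact_mod_cast h1.trans (h2.trans (Nat.add_le_add_left h3 _))
  linarith

lemma AvI_reloc (tri : ∀ a b c : V, H.Adj a b → H.Adj b c → ¬ H.Adj a c)
    {φ : U → Option V} {w : U} {x y z : V} (hx : φ w = some x) (hyx : H.Adj y x) (u : U) :
    AvI G H (update φ w (some z)) u y ⊆ insert x (AvI G H φ u y) := by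
  intro y' hy'
  rw [AvI, Finset.mem_filter, mem_Av] at hy'
  obtain ⟨⟨h1, h2⟩, h3⟩ := hy'
  rw [Finset.mem_insert]
  by_cases hxy : y' = x
  · exact Or.inl hxy
  right
  rw [AvI, Finset.mem_filter, mem_Av]
  refine ⟨⟨fun w' hw' => ?_, fun w' x' h4 h5 => ?_⟩, h3⟩
  · by_cases h : w' = w
    · subst h
      rw [hx]
      intro h'
      simp only [Option.some.injEq] at h'
      exact hxy h'.symm
    · have := h1 w' hw'
      rwa [update_of_ne h] at this
  · by_cases h : w' = w
    · subst h
      rw [hx] at h5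
      cases h5
      intro h6
      exact tri y x y' hyx h6 h3
    · exact h2 w' x' h4 (by rwa [update_of_ne h])

lemma mx_drop {k : ℝ} (hk0 : 0 < k)
    (hk : ∀ z : V, ((univ.filter (fun x => H.Adj z x)).card : ℝ) + 1 ≤ k)
    {φ : U → Option V} {w : U} {z : V} (u : U) :
    (7 / 8) * mx G H (8 * k) φ u ≤ mx G H (8 * k) (update φ w (some z)) u := by
  have h1 := Av_drop_card hk (G := G) (φ := φ) (w := w) (z := z) u
  unfold mx
  rcases le_total ((Av G H φ u).card : ℝ) (8 * k) with h | h
  · rw [max_eq_right h]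
    have := le_max_right ((Av G H (update φ w (some z)) u).card : ℝ) (8 * k)
    linarith
  · rw [max_eq_left h]
    have := le_max_left ((Av G H (update φ w (some z)) u).card : ℝ) (8 * k)
    linarith

lemma mx_pos {k : ℝ} (hk0 : 0 < k) (φ : U → Option V) (u : U) : 8 * k ≤ mx G H (8 * k) φ u ∧
    0 < mx G H (8 * k) φ u := by
  have h1 : 8 * k ≤ mx G H (8 * k) φ u := le_max_right _ _
  exact ⟨h1, by linarith⟩

lemma RR_nonneg {k : ℝ} (hk0 : 0 < k) (D : Finset U) (φ : U → Option V) (y : V) :
    0 ≤ RR G H (8 * k) D φ y := by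
  unfold RR
  refine Finset.sum_nonneg fun u _ => ?_
  have := (mx_pos (G := G) (H := H) hk0 φ u).2
  positivity

lemma RR_drift (tri : ∀ a b c : V, H.Adj a b → H.Adj b c → ¬ H.Adj a c)
    {k : ℝ} (hk0 : 0 < k)
    (hk : ∀ z : V, ((univ.filter (fun x => H.Adj z x)).card : ℝ) + 1 ≤ k)
    {D : Finset U} (hD : (D.card : ℝ) ≤ k)
    {φ : U → Option V} {w : U} {x y z : V} (hx : φ w = some x) (hyx : H.Adj y x) :
    RR G H (8 * k) D (update φ w (some z)) y ≤ (8 * RR G H (8 * k) D φ y + 1) / 7 := by
  have key : ∀ u ∈ D, ((AvI G H (update φ w (some z)) u y).card : ℝ) /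
      mx G H (8 * k) (update φ w (some z)) u ≤
      (8 / 7) * (((AvI G H φ u y).card : ℝ) / mx G H (8 * k) φ u) + 1 / (7 * k) := by
    intro u _
    obtain ⟨hm1, hm2⟩ := mx_pos (G := G) (H := H) hk0 φ u
    obtain ⟨hm3, hm4⟩ := mx_pos (G := G) (H := H) hk0 (update φ w (some z)) u
    have hd := mx_drop (G := G) hk0 hk (φ := φ) (w := w) (z := z) u
    have hc : ((AvI G H (update φ w (some z)) u y).card : ℝ) ≤ ((AvI G H φ u y).card : ℝ) + 1 := by
      have h1 := Finset.card_le_card (AvI_reloc (G := G) tri hx hyx (z := z) u)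
      have h2 := Finset.card_insert_le x (AvI G H φ u y)
      exact_mod_cast h1.trans h2
    have e1 : ((AvI G H (update φ w (some z)) u y).card : ℝ) /
        mx G H (8 * k) (update φ w (some z)) u ≤
        (((AvI G H φ u y).card : ℝ) + 1) / ((7 / 8) * mx G H (8 * k) φ u) := by
      apply div_le_div₀ (by positivity) hc (by positivity) hd
    have e2 : (((AvI G H φ u y).card : ℝ) + 1) / ((7 / 8) * mx G H (8 * k) φ u) =
        (8 / 7) * (((AvI G H φ u y).card : ℝ) / mx G H (8 * k) φ u) +
          (8 / 7) * (1 / mx G H (8 * k) φ u) := by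
      field_simp
    have e3 : 1 / mx G H (8 * k) φ u ≤ 1 / (8 * k) :=
      one_div_le_one_div_of_le (by positivity) hm1
    have e4 : (8 / 7 : ℝ) * (1 / (8 * k)) = 1 / (7 * k) := by
      field_simp
    nlinarith
  have h1 : RR G H (8 * k) D (update φ w (some z)) y ≤
      ∑ u ∈ D, ((8 / 7) * (((AvI G H φ u y).card : ℝ) / mx G H (8 * k) φ u) + 1 / (7 * k)) :=
    Finset.sum_le_sum key
  rw [Finset.sum_add_distrib, ← Finset.mul_sum, Finset.sum_const, nsmul_eq_mul] at h1
  have h2 : (D.card : ℝ) * (1 / (7 * k)) ≤ 1 / 7 := by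
    rw [mul_one_div, div_le_div_iff₀ (by positivity) (by norm_num)]
    linarith
  have h3 : RR G H (8 * k) D φ y = ∑ u ∈ D, ((AvI G H φ u y).card : ℝ) / mx G H (8 * k) φ u := rfl
  rw [← h3] at h1
  linarith

end

end Pool.Agent.H60.Ram3
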